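import Mathlib

set_option autoImplicit false

namespace Pool.Agent.Results.MP_ee21b2_co.IntegerRatio

open Finset

/-! ### Integer points of a capped box with a budget -/

section Row
variable {β : Type*} [Fintype β] [DecidableEq β]

/-- A linear functional with nonnegative coefficients on `{0 ≤ v ≤ m, ∑ v ≤ s, v z = 0}`
is dominated by its value at an integer point. -/
lemma row_round (m s : ℕ) (z : β) (a : β → ℝ) (ha : ∀ i, 0 ≤ a i) :
    ∀ (N : ℕ) (u : β → ℝ), (univ.filter fun i => Int.fract (u i) ≠ 0).card ≤ N →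
      (∀ i, 0 ≤ u i) → (∀ i, u i ≤ m) → u z = 0 → ∑ i, u i ≤ s →
      ∃ v : β → ℤ, (∀ i, 0 ≤ v i) ∧ (∀ i, v i ≤ m) ∧ v z = 0 ∧ ∑ i, v i ≤ s ∧
        ∑ i, a i * u i ≤ ∑ i, a i * (v i : ℝ) := by
  intro N
  induction N with
  | zero =>
    intro u hN h0 hm hz hs
    have hfr : ∀ i, Int.fract (u i) = 0 := by
      intro i
      by_contra hi
      have : i ∈ (univ.filter fun i => Int.fract (u i) ≠ 0) := by simp [hi]
      have h1 := Finset.card_pos.2 ⟨i, this⟩
      omega
    have hu : ∀ i, ((⌊u i⌋ : ℤ) : ℝ) = u i := by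
      intro i
      have := Int.floor_add_fract (u i)
      rw [hfr i, add_zero] at this
      exact this
    refine ⟨fun i => ⌊u i⌋, fun i => Int.floor_nonneg.2 (h0 i), fun i => ?_, ?_, ?_, ?_⟩
    · have : ((⌊u i⌋ : ℤ) : ℝ) ≤ m := by rw [hu]; exact hm i
      exact_mod_cast this
    · simp [hz]
    · have : ((∑ i, ⌊u i⌋ : ℤ) : ℝ) ≤ s := by
        push_cast
        rw [Finset.sum_congr rfl fun i _ => hu i]
        exact hs
      exact_mod_cast this
    · exact le_of_eq (Finset.sum_congr rfl fun i _ => by rw [hu i])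
  | succ N ih =>
    intro u hN h0 hm hz hs
    by_cases hex : ∃ i j, i ≠ j ∧ Int.fract (u i) ≠ 0 ∧ Int.fract (u j) ≠ 0 ∧ a j ≤ a i
    · obtain ⟨i, j, hij, hi, hj, haij⟩ := hex
      set d : ℝ := min (1 - Int.fract (u i)) (Int.fract (u j)) with hd
      have hfi0 : 0 < Int.fract (u i) := lt_of_le_of_ne (Int.fract_nonneg _) (Ne.symm hi)
      have hfj0 : 0 < Int.fract (u j) := lt_of_le_of_ne (Int.fract_nonneg _) (Ne.symm hj)
      have hfi1 := Int.fract_lt_one (u i)
      have hd0 : 0 < d := lt_min (by linarith) hfj0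
      have hd1 : d ≤ 1 - Int.fract (u i) := min_le_left _ _
      have hd2 : d ≤ Int.fract (u j) := min_le_right _ _
      set w : β → ℝ := fun l => u l + (if l = i then d else 0) - (if l = j then d else 0) with hw
      have hwi : w i = u i + d := by simp [hw, hij]
      have hwj : w j = u j - d := by simp [hw, hij.symm]
      have hwl : ∀ l, l ≠ i → l ≠ j → w l = u l := by
        intro l h1 h2; simp [hw, h1, h2]
      have hzi : z ≠ i := by
        rintro rfl; apply hi; rw [hz]; exact Int.fract_zero
      have hzj : z ≠ j := by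
        rintro rfl; apply hj; rw [hz]; exact Int.fract_zero
      have hsub : (univ.filter fun l => Int.fract (w l) ≠ 0).card <
          (univ.filter fun l => Int.fract (u l) ≠ 0).card := by
        apply Finset.card_lt_card
        rw [Finset.ssubset_iff_of_subset]
        · rcases min_choice (1 - Int.fract (u i)) (Int.fract (u j)) with h | h
          · refine ⟨i, by simp [hi], ?_⟩
            simp only [Finset.mem_filter, Finset.mem_univ, true_and, not_not]
            rw [hwi, hd, h]
            have : u i + (1 - Int.fract (u i)) = ((⌊u i⌋ + 1 : ℤ) : ℝ) := by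
              push_cast
              have := Int.floor_add_fract (u i)
              linarith
            rw [this]; exact Int.fract_intCast _
          · refine ⟨j, by simp [hj], ?_⟩
            simp only [Finset.mem_filter, Finset.mem_univ, true_and, not_not]
            rw [hwj, hd, h]
            have : u j - Int.fract (u j) = ((⌊u j⌋ : ℤ) : ℝ) := by
              have := Int.floor_add_fract (u j)
              linarith
            rw [this]; exact Int.fract_intCast _
        · intro l hl
          simp only [Finset.mem_filter, Finset.mem_univ, true_and] at hl ⊢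
          by_cases h1 : l = i
          · rw [h1]; exact hi
          by_cases h2 : l = j
          · rw [h2]; exact hj
          rw [hwl l h1 h2] at hl; exact hl
      have hlt : ((⌊u i⌋ : ℤ) : ℝ) + 1 ≤ m := by
        have h1 : ((⌊u i⌋ : ℤ) : ℝ) < m := by
          have := Int.floor_add_fract (u i)
          have := hm i
          linarith
        have h2 : ⌊u i⌋ < (m : ℤ) := by exact_mod_cast h1
        have h3 : ⌊u i⌋ + 1 ≤ (m : ℤ) := by omega
        exact_mod_cast h3
      have hfl : (0 : ℝ) ≤ ((⌊u j⌋ : ℤ) : ℝ) := by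
        exact_mod_cast Int.floor_nonneg.2 (h0 j)
      obtain ⟨v, hv1, hv2, hv3, hv4, hv5⟩ := ih w (by omega)
        (by
          intro l
          by_cases h1 : l = i
          · rw [h1, hwi]; linarith [h0 i]
          by_cases h2 : l = j
          · rw [h2, hwj]
            have := Int.floor_add_fract (u j)
            linarith
          rw [hwl l h1 h2]; exact h0 l)
        (by
          intro l
          by_cases h1 : l = i
          · rw [h1, hwi]
            have := Int.floor_add_fract (u i)
            linarith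
          by_cases h2 : l = j
          · rw [h2, hwj]; linarith [hm j]
          rw [hwl l h1 h2]; exact hm l)
        (by rw [hwl z hzi hzj]; exact hz)
        (by
          have : ∑ l, w l = ∑ l, u l := by
            simp only [hw]
            rw [Finset.sum_sub_distrib, Finset.sum_add_distrib, Finset.sum_ite_eq',
              Finset.sum_ite_eq']
            simp
          rw [this]; exact hs)
      refine ⟨v, hv1, hv2, hv3, hv4, le_trans ?_ hv5⟩
      have : ∑ l, a l * w l = ∑ l, a l * u l + (a i * d - a j * d) := by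
        simp only [hw]
        have : ∀ l, a l * (u l + (if l = i then d else 0) - (if l = j then d else 0)) =
            a l * u l + (if l = i then a l * d else 0) - (if l = j then a l * d else 0) := by
          intro l; split_ifs <;> ring
        rw [Finset.sum_congr rfl fun l _ => this l, Finset.sum_sub_distrib,
          Finset.sum_add_distrib, Finset.sum_ite_eq', Finset.sum_ite_eq']
        simp; ring
      rw [this]
      nlinarith
    · -- at most one fractional entry
      have huniq : ∀ i j, Int.fract (u i) ≠ 0 → Int.fract (u j) ≠ 0 → i = j := by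
        intro i j hi hj
        by_contra hij
        rcases le_total (a j) (a i) with h | h
        · exact hex ⟨i, j, hij, hi, hj, h⟩
        · exact hex ⟨j, i, Ne.symm hij, hj, hi, h⟩
      have hc : ∀ i, u i ≤ ((⌈u i⌉ : ℤ) : ℝ) := fun i => Int.le_ceil _
      refine ⟨fun i => ⌈u i⌉, fun i => Int.ceil_nonneg (h0 i), fun i => ?_, ?_, ?_, ?_⟩
      · exact Int.ceil_le.2 (by exact_mod_cast hm i)
      · simp [hz]
      · by_cases hne : ∃ i, Int.fract (u i) ≠ 0
        · obtain ⟨i, hi⟩ := hne
          have hoth : ∀ l ∈ univ.erase i, u l = ((⌈u l⌉ : ℤ) : ℝ) := by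
            intro l hl
            have hli : l ≠ i := (Finset.mem_erase.1 hl).1
            have hfl : Int.fract (u l) = 0 := by
              by_contra h; exact hli (huniq l i h hi)
            have h1 := Int.floor_add_fract (u l)
            rw [hfl, add_zero] at h1
            rw [← h1, Int.ceil_intCast]
          have hsum : u i + ((∑ l ∈ univ.erase i, ⌈u l⌉ : ℤ) : ℝ) ≤ s := by
            push_cast
            rw [← Finset.sum_congr rfl hoth, Finset.add_sum_erase _ _ (mem_univ i)]
            exact hs
          rw [← Finset.add_sum_erase univ (fun l => ⌈u l⌉) (mem_univ i)]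
          have h2 : ⌈u i⌉ ≤ (s : ℤ) - ∑ l ∈ univ.erase i, ⌈u l⌉ := by
            apply Int.ceil_le.2
            rw [Int.cast_sub, Int.cast_natCast]
            linarith
          linarith
        · push Not at hne
          have : ((∑ i, ⌈u i⌉ : ℤ) : ℝ) ≤ s := by
            push_cast
            have hoth : ∀ l ∈ (univ : Finset β), ((⌈u l⌉ : ℤ) : ℝ) = u l := by
              intro l _
              have h1 := Int.floor_add_fract (u l)
              rw [hne l, add_zero] at h1
              rw [← h1, Int.ceil_intCast]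
            rw [Finset.sum_congr rfl hoth]
            exact hs
          exact_mod_cast this
      · exact Finset.sum_le_sum fun i _ => mul_le_mul_of_nonneg_left (hc i) (ha i)

end Row

/-! ### The integer case -/

section IntCase
variable {β : Type*} [Fintype β]

/-- A symmetric integer matrix with zero diagonal has an even sum of entries. -/
lemma even_of_symm (N : β → β → ℤ) (h0 : ∀ a, N a a = 0) (hsym : ∀ a b, N a b = N b a) :
    Even (∑ a, ∑ b, N a b) := by
  have h : ((∑ a, ∑ b, N a b : ℤ) : ZMod 2) = 0 := by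
    push_cast
    rw [← Finset.sum_product' (univ : Finset β) (univ : Finset β)
      (fun a b => ((N a b : ℤ) : ZMod 2))]
    refine Finset.sum_involution (fun p _ => (p.2, p.1)) ?_ ?_ ?_ ?_
    · intro p _
      rw [hsym p.2 p.1]
      exact CharTwo.add_self_eq_zero _
    · intro p _ hne heq
      apply hne
      have h1 : p.2 = p.1 := (Prod.ext_iff.1 heq).1
      rw [← h1, h0]; simp
    · intro p _; simp
    · intro p _; rfl
  exact (ZMod.intCast_eq_zero_iff_even).1 h

lemma int_case [DecidableEq β] (m t : ℕ) (N : β → β → ℤ) (h0 : ∀ a b, 0 ≤ N a b) (hm : ∀ a b, N a b ≤ m)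
    (hd : ∀ a, N a a = 0) (s : β → ℕ) (hs : ∀ a, ∑ b, N a b ≤ s a) (hst : ∑ a, s a = t)
    (ht : Odd t) : ∑ a, ∑ b, N a b * N b a ≤ ((t : ℤ) - 1) * m := by
  have hT : ∑ a, ∑ b, N a b ≤ t := by
    calc ∑ a, ∑ b, N a b ≤ ∑ a, (s a : ℤ) := Finset.sum_le_sum fun a _ => hs a
      _ = t := by rw [← hst]; push_cast; rfl
  have hloss : ∑ a, ∑ b, N a b * (m - N b a) = m * (∑ a, ∑ b, N a b) -
      ∑ a, ∑ b, N a b * N b a := by
    rw [Finset.mul_sum, ← Finset.sum_sub_distrib]
    refine Finset.sum_congr rfl fun a _ => ?_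
    rw [Finset.mul_sum, ← Finset.sum_sub_distrib]
    refine Finset.sum_congr rfl fun b _ => ?_
    ring
  have hnn : ∀ a b, 0 ≤ N a b * (m - N b a) := fun a b =>
    mul_nonneg (h0 a b) (by linarith [hm b a])
  have hm0 : (0 : ℤ) ≤ m := Int.natCast_nonneg m
  by_cases hlt : ∑ a, ∑ b, N a b ≤ (t : ℤ) - 1
  · have h1 : 0 ≤ ∑ a, ∑ b, N a b * (m - N b a) :=
      Finset.sum_nonneg fun a _ => Finset.sum_nonneg fun b _ => hnn a b
    nlinarith
  · have hTt : ∑ a, ∑ b, N a b = t := by omega
    obtain ⟨a, b, hab⟩ : ∃ a b, N a b ≠ N b a := by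
      by_contra hcon
      push Not at hcon
      have h1 := even_of_symm N hd hcon
      rw [hTt] at h1
      have h2 : Even t := by exact_mod_cast h1
      exact (Nat.not_even_iff_odd.2 ht) h2
    have hne : a ≠ b := by rintro rfl; exact hab rfl
    have h2 : N a b * (m - N b a) + N b a * (m - N a b) ≤ ∑ a, ∑ b, N a b * (m - N b a) := by
      rw [← Finset.sum_product' (univ : Finset β) (univ : Finset β)
        (fun a b => N a b * (m - N b a))]
      have h3 : ∑ p ∈ ({(a, b), (b, a)} : Finset (β × β)), N p.1 p.2 * (m - N p.2 p.1) =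
          N a b * (m - N b a) + N b a * (m - N a b) := by
        rw [Finset.sum_pair]
        intro h; exact hne (Prod.ext_iff.1 h).1
      rw [← h3]
      refine Finset.sum_le_sum_of_subset_of_nonneg (fun _ _ => ?_) (fun p _ _ => hnn p.1 p.2)
      simp
    have h4 : (m : ℤ) ≤ N a b * (m - N b a) + N b a * (m - N a b) := by
      have ha0 := h0 a b
      have hb0 := h0 b a
      have ha1 := hm a b
      have hb1 := hm b a
      rcases lt_or_gt_of_ne hab with h | h
      · have h5 : N a b + 1 ≤ N b a := h
        nlinarith [mul_nonneg ha0 (sub_nonneg.2 hb1), mul_nonneg (sub_nonneg.2 h5)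
          (sub_nonneg.2 ha1)]
      · have h5 : N b a + 1 ≤ N a b := h
        nlinarith [mul_nonneg hb0 (sub_nonneg.2 ha1), mul_nonneg (sub_nonneg.2 h5)
          (sub_nonneg.2 hb1)]
    rw [hTt] at hloss
    nlinarith

end IntCase

/-! ### Replacing rows by integer rows -/

section Replace
variable {β : Type*} [Fintype β] [DecidableEq β]

/-- effect of changing one row on `∑ u_ab u_ba` -/
lemma row_change (u : β → β → ℝ) (y : β) (v : β → ℝ) (hu : u y y = 0) (hv : v y = 0) :
    ∑ a, ∑ b, Function.update u y v a b * Function.update u y v b a =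
      ∑ a, ∑ b, u a b * u b a + 2 * ∑ b, u b y * (v b - u y b) := by
  have key : ∀ a b, Function.update u y v a b * Function.update u y v b a =
      u a b * u b a + ((if a = y then u b y * (v b - u y b) else 0) +
        (if b = y then u a y * (v a - u y a) else 0)) := by
    intro a b
    by_cases ha : a = y
    · subst ha
      by_cases hb : b = a
      · subst hb; simp [hu, hv]
      · simp [hb]; ring
    · by_cases hb : b = y
      · subst hb
        simp [ha]; ring
      · simp [ha, hb]
  simp_rw [key, Finset.sum_add_distrib]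
  have h1 : ∑ a, ∑ b, (if a = y then u b y * (v b - u y b) else 0) =
      ∑ b, u b y * (v b - u y b) := by
    rw [Finset.sum_comm]
    exact Finset.sum_congr rfl fun b _ => by simp
  have h2 : ∑ a, ∑ b, (if b = y then u a y * (v a - u y a) else 0) =
      ∑ b, u b y * (v b - u y b) :=
    Finset.sum_congr rfl fun a _ => by simp
  rw [h1, h2]; ring

lemma replace_rows (m : ℕ) (s : β → ℕ) (u : β → β → ℝ) (h0 : ∀ a b, 0 ≤ u a b)
    (hm : ∀ a b, u a b ≤ m) (hd : ∀ a, u a a = 0) (hs : ∀ a, ∑ b, u a b ≤ s a) (T : Finset β) :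
    ∃ w : β → β → ℝ, (∀ a b, 0 ≤ w a b) ∧ (∀ a b, w a b ≤ m) ∧ (∀ a, w a a = 0) ∧
      (∀ a, ∑ b, w a b ≤ s a) ∧ (∀ a ∈ T, ∃ v : β → ℤ, ∀ b, w a b = v b) ∧
      ∑ a, ∑ b, u a b * u b a ≤ ∑ a, ∑ b, w a b * w b a := by
  induction T using Finset.induction_on with
  | empty => exact ⟨u, h0, hm, hd, hs, by simp, le_rfl⟩
  | insert y T hy ih =>
    obtain ⟨w, w0, wm, wd, ws, wi, wF⟩ := ih
    obtain ⟨v, v0, vm, vz, vs, vF⟩ := row_round m (s y) y (fun b => w b y) (fun b => w0 b y)
      _ (w y) le_rfl (w0 y) (wm y) (wd y) (ws y)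
    refine ⟨Function.update w y (fun b => (v b : ℝ)), ?_, ?_, ?_, ?_, ?_, ?_⟩
    · intro a b
      by_cases ha : a = y
      · subst ha; simp only [Function.update_self]; exact_mod_cast v0 b
      · rw [Function.update_of_ne ha]; exact w0 a b
    · intro a b
      by_cases ha : a = y
      · subst ha; simp only [Function.update_self]; exact_mod_cast vm b
      · rw [Function.update_of_ne ha]; exact wm a b
    · intro a
      by_cases ha : a = y
      · subst ha; simp [vz]
      · rw [Function.update_of_ne ha]; exact wd a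
    · intro a
      by_cases ha : a = y
      · subst ha; simp only [Function.update_self]; exact_mod_cast vs
      · rw [Function.update_of_ne ha]; exact ws a
    · intro a ha
      by_cases hay : a = y
      · subst hay; exact ⟨v, fun b => by simp⟩
      · rw [Function.update_of_ne hay]
        exact wi a ((Finset.mem_insert.1 ha).resolve_left hay)
    · refine wF.trans ?_
      rw [row_change w y _ (wd y) (by simp [vz])]
      have : 0 ≤ ∑ b, w b y * ((v b : ℝ) - w y b) := by
        have h1 : ∑ b, w b y * ((v b : ℝ) - w y b) =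
            ∑ b, w b y * (v b : ℝ) - ∑ b, w b y * w y b := by
          rw [← Finset.sum_sub_distrib]
          exact Finset.sum_congr rfl fun b _ => by ring
        rw [h1]; linarith
      linarith

/-- The key inequality for real matrices. -/
lemma key_ineq (m t : ℕ) (s : β → ℕ) (u : β → β → ℝ) (h0 : ∀ a b, 0 ≤ u a b)
    (hm : ∀ a b, u a b ≤ m) (hd : ∀ a, u a a = 0) (hs : ∀ a, ∑ b, u a b ≤ s a)
    (hst : ∑ a, s a = t) (ht : Odd t) :
    ∑ a, ∑ b, u a b * u b a ≤ ((t : ℝ) - 1) * m := by
  obtain ⟨w, w0, wm, wd, ws, wi, wF⟩ := replace_rows m s u h0 hm hd hs univ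
  choose N hN using fun a => wi a (mem_univ a)
  have h1 := int_case m t N
    (fun a b => by have := w0 a b; rw [hN] at this; exact_mod_cast this)
    (fun a b => by have := wm a b; rw [hN] at this; exact_mod_cast this)
    (fun a => by have := wd a; rw [hN] at this; exact_mod_cast this)
    s
    (fun a => by
      have := ws a
      rw [Finset.sum_congr rfl fun b _ => hN a b] at this
      exact_mod_cast this) hst ht
  refine wF.trans ?_
  have h2 : ∑ a, ∑ b, w a b * w b a = ((∑ a, ∑ b, N a b * N b a : ℤ) : ℝ) := by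
    push_cast
    refine Finset.sum_congr rfl fun a _ => Finset.sum_congr rfl fun b _ => ?_
    rw [hN a b, hN b a]
  rw [h2]
  exact_mod_cast h1

end Replace

/-! ### The matrix inequality -/

section Main
variable {α β : Type*} [Fintype α] [Fintype β]

/-- The largest row sum `‖M‖_∞ = max_x ∑_y M_{xy}` of a nonnegative matrix (and `0` if there are
no rows). -/
noncomputable def rowNorm (M : α → β → ℝ) : ℝ := ⨆ x, ∑ y, M x y

/-- The largest column sum `‖M‖_1 = max_y ∑_x M_{xy}` of a nonnegative matrix (and `0` if there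
are no columns). -/
noncomputable def colNorm (M : α → β → ℝ) : ℝ := ⨆ y, ∑ x, M x y

/-- The bound when the column sums are at most `m` times `R`, `m` a natural number. -/
lemma main_bound (M : α → β → ℝ) (hM : ∀ x y, 0 ≤ M x y) (R : ℝ) (m : ℕ)
    (hR : ∀ x, ∑ y, M x y ≤ R) (hC : ∀ y, ∑ x, M x y ≤ m * R) (t : ℕ) (ht : Odd t)
    (x : Fin t → α) (y : Fin t → β) (hinj : Function.Injective fun i => (x i, y i))
    (hz : ∀ i, M (x i) (y i) = 0) :
    ∑ i, ∑ j, M (x i) (y j) * M (x j) (y i) ≤ ((t : ℝ) - 1) * (R * (m * R)) := by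
  classical
  have ht1 : 1 ≤ t := ht.pos
  have hR0 : 0 ≤ R := (Finset.sum_nonneg fun b _ => hM (x ⟨0, ht1⟩) b).trans (hR _)
  have htr : (1 : ℝ) ≤ t := by exact_mod_cast ht1
  rcases hR0.eq_or_lt with hR1 | hRp
  · -- `R = 0`
    have hM0 : ∀ a b, M a b = 0 := by
      intro a b
      have h1 : M a b ≤ ∑ b, M a b :=
        Finset.single_le_sum (f := fun b => M a b) (fun b _ => hM a b) (mem_univ b)
      have := hR a
      linarith [hM a b]
    simp [hM0, ← hR1]
  set c : β → β → ℝ := fun a b => ∑ i ∈ univ.filter (fun i => y i = a), M (x i) b with hc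
  set s : β → ℕ := fun a => (univ.filter fun i : Fin t => y i = a).card with hs
  have key := key_ineq m t s (fun a b => c a b / R)
    (fun a b => div_nonneg (Finset.sum_nonneg fun i _ => hM _ _) hRp.le)
    (by
      intro a b
      rw [div_le_iff₀ hRp]
      refine le_trans ?_ (hC b)
      have hinj' : Set.InjOn x (univ.filter fun i : Fin t => y i = a) := by
        intro i hi j hj hij
        have h1 : y i = a := by simpa using hi
        have h2 : y j = a := by simpa using hj
        apply hinj
        simp only [Prod.mk.injEq]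
        exact ⟨hij, h1.trans h2.symm⟩
      rw [hc]
      have h3 : ∑ i ∈ univ.filter (fun i => y i = a), M (x i) b =
          ∑ z ∈ (univ.filter fun i : Fin t => y i = a).image x, M z b :=
        (Finset.sum_image (f := fun z => M z b) hinj').symm
      change ∑ i ∈ univ.filter (fun i => y i = a), M (x i) b ≤ _
      rw [h3]
      exact Finset.sum_le_sum_of_subset_of_nonneg (Finset.subset_univ _) fun z _ _ => hM z b)
    (by
      intro a
      have : c a a = 0 := by
        rw [hc]
        refine Finset.sum_eq_zero fun i hi => ?_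
        have h1 : y i = a := by simpa using hi
        rw [← h1]; exact hz i
      rw [this, zero_div])
    (by
      intro a
      rw [← Finset.sum_div, div_le_iff₀ hRp, hc]
      rw [Finset.sum_comm, hs]
      calc ∑ i ∈ univ.filter (fun i => y i = a), ∑ b, M (x i) b
          ≤ ∑ i ∈ univ.filter (fun i => y i = a), R := Finset.sum_le_sum fun i _ => hR _
        _ = _ := by rw [Finset.sum_const, nsmul_eq_mul])
    (by
      rw [hs, ← Finset.card_eq_sum_card_fiberwise (s := (univ : Finset (Fin t)))
        (t := (univ : Finset β)) (f := y) (fun _ _ => mem_univ _)]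
      simp)
    ht
  have hsum : ∑ i, ∑ j, M (x i) (y j) * M (x j) (y i) = ∑ a, ∑ b, c a b * c b a := by
    have h1 : ∀ a b, c a b * c b a = ∑ i ∈ univ.filter (fun i => y i = a),
        ∑ j ∈ univ.filter (fun j => y j = b), M (x i) (y j) * M (x j) (y i) := by
      intro a b
      rw [hc]
      change (∑ i ∈ univ.filter (fun i => y i = a), M (x i) b) *
        (∑ j ∈ univ.filter (fun j => y j = b), M (x j) a) = _
      rw [Finset.sum_mul_sum]
      refine Finset.sum_congr rfl fun i hi => Finset.sum_congr rfl fun j hj => ?_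
      have h1 : y i = a := by simpa using hi
      have h2 : y j = b := by simpa using hj
      rw [h1, h2]
    simp_rw [h1]
    have h2 : ∀ a, ∑ b, ∑ i ∈ univ.filter (fun i => y i = a),
        ∑ j ∈ univ.filter (fun j => y j = b), M (x i) (y j) * M (x j) (y i) =
        ∑ i ∈ univ.filter (fun i => y i = a), ∑ j, M (x i) (y j) * M (x j) (y i) := by
      intro a
      rw [Finset.sum_comm]
      refine Finset.sum_congr rfl fun i _ => ?_
      exact Finset.sum_fiberwise univ y (fun j => M (x i) (y j) * M (x j) (y i))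
    simp_rw [h2]
    exact (Finset.sum_fiberwise univ y
      (fun i => ∑ j, M (x i) (y j) * M (x j) (y i))).symm
  have h3 : ∑ a, ∑ b, c a b / R * (c b a / R) = (∑ a, ∑ b, c a b * c b a) / (R * R) := by
    rw [Finset.sum_div]
    refine Finset.sum_congr rfl fun a _ => ?_
    rw [Finset.sum_div]
    refine Finset.sum_congr rfl fun b _ => ?_
    rw [div_mul_div_comm]
  rw [h3, div_le_iff₀ (mul_pos hRp hRp)] at key
  rw [hsum]
  calc ∑ a, ∑ b, c a b * c b a ≤ ((t : ℝ) - 1) * m * (R * R) := key
    _ = _ := by ring

lemma le_rowNorm (M : α → β → ℝ) (x : α) : ∑ y, M x y ≤ rowNorm M :=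
  le_ciSup (f := fun x => ∑ y, M x y) (Set.finite_range _).bddAbove x

lemma le_colNorm (M : α → β → ℝ) (y : β) : ∑ x, M x y ≤ colNorm M :=
  le_ciSup (f := fun y => ∑ x, M x y) (Set.finite_range _).bddAbove y

end Main

/-- **Main theorem.** Let `M` be a nonnegative real matrix with rows indexed by `α` and columns
indexed by `β`, let `t` be odd and `(x_1,y_1), …, (x_t,y_t)` pairwise distinct positions where `M`
vanishes, and put `Sum = ∑_{i,j} M_{x_i y_j} M_{x_j y_i}`.
(1) If one of `‖M‖_∞`, `‖M‖_1` is a natural number times the other (for instance if they are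
    equal), then `Sum ≤ (t-1) ‖M‖_∞ ‖M‖_1`.
(2) In general, for all natural numbers `m`: if `‖M‖_1 ≤ m ‖M‖_∞` then
    `Sum ≤ (t-1) ‖M‖_∞ (m ‖M‖_∞)`, and if `‖M‖_∞ ≤ m ‖M‖_1` then
    `Sum ≤ (t-1) (m ‖M‖_1) ‖M‖_1`. -/
theorem result {α β : Type*} [Fintype α] [Fintype β] (M : α → β → ℝ) (hM : ∀ x y, 0 ≤ M x y)
    (t : ℕ) (ht : Odd t) (x : Fin t → α) (y : Fin t → β)
    (hinj : Function.Injective fun i => (x i, y i)) (hz : ∀ i, M (x i) (y i) = 0) :
    (∀ m : ℕ, (colNorm M = m * rowNorm M ∨ rowNorm M = m * colNorm M) →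
      ∑ i, ∑ j, M (x i) (y j) * M (x j) (y i) ≤ ((t : ℝ) - 1) * rowNorm M * colNorm M) ∧
    (∀ m : ℕ, colNorm M ≤ m * rowNorm M →
      ∑ i, ∑ j, M (x i) (y j) * M (x j) (y i) ≤
        ((t : ℝ) - 1) * rowNorm M * (m * rowNorm M)) ∧
    (∀ m : ℕ, rowNorm M ≤ m * colNorm M →
      ∑ i, ∑ j, M (x i) (y j) * M (x j) (y i) ≤
        ((t : ℝ) - 1) * (m * colNorm M) * colNorm M) := by
  have h2 : ∀ m : ℕ, colNorm M ≤ m * rowNorm M →
      ∑ i, ∑ j, M (x i) (y j) * M (x j) (y i) ≤
        ((t : ℝ) - 1) * rowNorm M * (m * rowNorm M) := by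
    intro m hm
    have := main_bound M hM (rowNorm M) m (le_rowNorm M) (fun b => (le_colNorm M b).trans hm)
      t ht x y hinj hz
    calc _ ≤ _ := this
      _ = _ := by ring
  have h3 : ∀ m : ℕ, rowNorm M ≤ m * colNorm M →
      ∑ i, ∑ j, M (x i) (y j) * M (x j) (y i) ≤
        ((t : ℝ) - 1) * (m * colNorm M) * colNorm M := by
    intro m hm
    have := main_bound (fun b a => M a b) (fun b a => hM a b) (colNorm M) m
      (fun b => le_colNorm M b) (fun a => (le_rowNorm M a).trans hm) t ht y x
      (fun i j hij => hinj (by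
        simp only [Prod.mk.injEq] at hij ⊢
        exact ⟨hij.2, hij.1⟩)) hz
    have h4 : ∑ i, ∑ j, M (x j) (y i) * M (x i) (y j) =
        ∑ i, ∑ j, M (x i) (y j) * M (x j) (y i) :=
      Finset.sum_congr rfl fun i _ => Finset.sum_congr rfl fun j _ => mul_comm _ _
    rw [h4] at this
    calc _ ≤ _ := this
      _ = _ := by ring
  refine ⟨fun m hm => ?_, h2, h3⟩
  rcases hm with h | h
  · have := h2 m h.le
    rwa [← h] at this
  · have := h3 m h.le
    rwa [← h] at this

end Pool.Agent.Results.MP_ee21b2_co.IntegerRatio
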